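import Mathlib
import Pool.Agent.MP_57b808_an.Final

universe u v

/-- There is a strong Gurarii space that is isomorphic to a Banach space with a projectional
resolution of the identity. -/
theorem Pool.Agent.Results.MP_57b808_an.StrongGurariiPRI.result :
    ∃ (X : Type u) (_ : NormedAddCommGroup X) (_ : NormedSpace ℝ X) (_ : CompleteSpace X),
      Pool.Agent.MP_57b808_an.StrongGurarii.{u, v} X ∧
      ∃ (Y : Type u) (_ : NormedAddCommGroup Y) (_ : NormedSpace ℝ Y) (_ : CompleteSpace Y),
        Nonempty (X ≃L[ℝ] Y) ∧ Pool.Agent.MP_57b808_an.HasPRI Y :=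
  Pool.Agent.MP_57b808_an.main
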